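import Mathlib

/-!
# Red-blue cuts: the graph of the reduction

From a graph `G` on `N` vertices we build a graph with red and blue edges whose `s`-`t` cuts measure
the number of edges inside a set of vertices of `G`.
-/

set_option autoImplicit false

namespace Pool.Agent.K1H72.RB

/-- The number of the edges of `G` with exactly one end in `X`. -/
noncomputable def cutSize {V : Type*} (G : SimpleGraph V) (X : Set V) : ℕ :=
  Set.ncard {e : Sym2 V | e ∈ G.edgeSet ∧ ∃ u v, e = s(u, v) ∧ u ∈ X ∧ v ∉ X}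

/-- The ordered pairs of adjacent vertices, the first one in `X`, the second one not. -/
def cutPairs {V : Type*} (G : SimpleGraph V) (X : Set V) : Set (V × V) :=
  {p | G.Adj p.1 p.2 ∧ p.1 ∈ X ∧ p.2 ∉ X}

theorem cutSize_eq {V : Type*} (G : SimpleGraph V) (X : Set V) :
    cutSize G X = (cutPairs G X).ncard := by
  unfold cutSize
  have h : {e : Sym2 V | e ∈ G.edgeSet ∧ ∃ u v, e = s(u, v) ∧ u ∈ X ∧ v ∉ X} =
      (fun p : V × V => s(p.1, p.2)) '' cutPairs G X := by
    ext e
    constructor
    · rintro ⟨h1, u, v, rfl, hu, hv⟩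
      exact ⟨(u, v), ⟨h1, hu, hv⟩, rfl⟩
    · rintro ⟨p, ⟨h1, h2, h3⟩, rfl⟩
      exact ⟨h1, p.1, p.2, rfl, h2, h3⟩
  rw [h, Set.InjOn.ncard_image]
  rintro ⟨a, b⟩ ⟨h1, h2, h3⟩ ⟨c, d⟩ ⟨h4, h5, h6⟩ h7
  simp only [Sym2.eq_iff] at h7
  rcases h7 with ⟨rfl, rfl⟩ | ⟨rfl, rfl⟩
  · rfl
  · exact absurd h2 h6

theorem cutSize_iso {V W : Type*} {G : SimpleGraph V} {H : SimpleGraph W} (e : V ≃ W)
    (he : ∀ a b, H.Adj (e a) (e b) ↔ G.Adj a b) (X : Set V) :
    cutSize H (e '' X) = cutSize G X := by
  rw [cutSize_eq, cutSize_eq]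
  have h : cutPairs H (e '' X) = (Prod.map e e) '' cutPairs G X := by
    ext ⟨a, b⟩
    constructor
    · rintro ⟨h1, ⟨x, hx, hx'⟩, h3⟩
      refine ⟨(x, e.symm b), ⟨?_, hx, ?_⟩, ?_⟩
      · rw [← he]
        simp only at hx' ⊢
        rw [hx', Equiv.apply_symm_apply]
        exact h1
      · intro h4
        exact h3 ⟨_, h4, by simp⟩
      · simp only [Prod.map_apply, Equiv.apply_symm_apply, Prod.mk.injEq, and_true]
        exact hx'
    · rintro ⟨⟨x, y⟩, ⟨h1, h2, h3⟩, h4⟩
      simp only [Prod.map_apply, Prod.mk.injEq] at h4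
      obtain ⟨rfl, rfl⟩ := h4
      refine ⟨(he _ _).2 h1, ⟨x, h2, rfl⟩, ?_⟩
      rintro ⟨z, hz, hz'⟩
      rw [e.injective hz'] at hz
      exact h3 hz
  rw [h, Set.ncard_image_of_injective _ (Function.Injective.prodMap e.injective e.injective)]

/-- The vertices of the graph of the reduction. -/
inductive Vt (N : ℕ) : Type
  | s : Vt N
  | t : Vt N
  | v (i : Fin N) : Vt N
  | x (c : Bool) (i j : Fin N) : Vt N
  deriving DecidableEq, Fintype

variable {N : ℕ}

/-- Red edges, in one direction. -/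
def redD (G : SimpleGraph (Fin N)) : Vt N → Vt N → Prop
  | Vt.v i, Vt.v j => G.Adj i j
  | Vt.v i, Vt.x c i' j => i = i' ∧ (c = true → ¬ G.Adj i' j)
  | Vt.x _ _ _, Vt.t => True
  | _, _ => False

/-- Blue edges, in one direction. -/
def blueD : Vt N → Vt N → Prop
  | Vt.s, Vt.v _ => True
  | _, _ => False

/-- The red graph. -/
def Red (G : SimpleGraph (Fin N)) : SimpleGraph (Vt N) where
  Adj a b := redD G a b ∨ redD G b a
  symm := ⟨fun _ _ h => h.symm⟩
  loopless := ⟨fun a h => by
    cases a <;> simp [redD] at h⟩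

/-- The blue graph. -/
def Blue (N : ℕ) : SimpleGraph (Vt N) where
  Adj a b := blueD a b ∨ blueD b a
  symm := ⟨fun _ _ h => h.symm⟩
  loopless := ⟨fun a h => by
    cases a <;> simp [blueD] at h⟩

theorem disjoint_red_blue (G : SimpleGraph (Fin N)) : Disjoint (Red G) (Blue N) := by
  rw [disjoint_iff_inf_le]
  intro a b h
  obtain ⟨h1, h2⟩ := h
  cases a <;> cases b <;> simp [Red, Blue, redD, blueD] at h1 h2 ⊢

open Classical in
/-- The set which counts red edges of a cut. -/
noncomputable def DA (G : SimpleGraph (Fin N)) (A : Finset (Fin N)) :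
    Finset (Bool × Fin N × Fin N) :=
  Finset.univ.filter fun p => p.2.1 ∈ A ∧ (p.1 = true → G.Adj p.2.1 p.2.2 → p.2.2 ∉ A)

open Classical in
/-- The number of neighbours in a set. -/
noncomputable def degIn (G : SimpleGraph (Fin N)) (A : Finset (Fin N)) (i : Fin N) : ℕ :=
  (A.filter fun j => G.Adj i j).card

theorem card_DA (G : SimpleGraph (Fin N)) (A : Finset (Fin N)) :
    (DA G A).card + ∑ i ∈ A, degIn G A i = 2 * N * A.card := by
  classical
  have h1 : (DA G A).card = ∑ i ∈ A, (N + (N - degIn G A i)) := by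
    have h2 : DA G A = (A.sigma (fun i => (Finset.univ : Finset (Fin N)).disjSum
        (Finset.univ.filter fun j => ¬ (G.Adj i j ∧ j ∈ A)))).image
        (fun q : (Σ _ : Fin N, Fin N ⊕ Fin N) => match q with
          | ⟨i, Sum.inl j⟩ => (false, i, j)
          | ⟨i, Sum.inr j⟩ => (true, i, j)) := by
      ext ⟨c, i, j⟩
      simp only [DA, Finset.mem_filter, Finset.mem_univ, true_and, Finset.mem_image,
        Finset.mem_sigma]
      constructor
      · rintro ⟨h1, h2⟩
        cases c
        · exact ⟨⟨i, Sum.inl j⟩, ⟨h1, by simp⟩, rfl⟩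
        · refine ⟨⟨i, Sum.inr j⟩, ⟨h1, ?_⟩, rfl⟩
          simp only [Finset.inr_mem_disjSum, Finset.mem_filter, Finset.mem_univ, true_and]
          rintro ⟨h3, h4⟩
          exact h2 rfl h3 h4
      · rintro ⟨⟨i', j' | j'⟩, ⟨h1, h2⟩, h3⟩
        · simp only [Prod.mk.injEq] at h3
          obtain ⟨rfl, rfl, rfl⟩ := h3
          exact ⟨h1, by simp⟩
        · simp only [Prod.mk.injEq] at h3
          obtain ⟨rfl, rfl, rfl⟩ := h3
          simp only [Finset.inr_mem_disjSum, Finset.mem_filter, Finset.mem_univ, true_and] at h2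
          exact ⟨h1, fun _ h3 h4 => h2 ⟨h3, h4⟩⟩
    rw [h2, Finset.card_image_of_injOn, Finset.card_sigma]
    · refine Finset.sum_congr rfl fun i _ => ?_
      rw [Finset.card_disjSum, Finset.card_univ, Fintype.card_fin]
      congr 1
      have h3 : (Finset.univ.filter fun j => ¬ (G.Adj i j ∧ j ∈ A)) =
          (A.filter fun j => G.Adj i j)ᶜ := by
        ext j
        simp only [Finset.mem_filter, Finset.mem_univ, true_and, Finset.mem_compl]
        tauto
      rw [h3, Finset.card_compl, Fintype.card_fin]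
      rfl
    · rintro ⟨i, j | j⟩ _ ⟨i', j' | j'⟩ _ h <;> simp only [Prod.mk.injEq, reduceCtorEq,
        false_and] at h
      · obtain ⟨_, rfl, rfl⟩ := h
        rfl
      · obtain ⟨_, rfl, rfl⟩ := h
        rfl
  rw [h1, ← Finset.sum_add_distrib]
  have h4 : ∀ i ∈ A, N + (N - degIn G A i) + degIn G A i = 2 * N := by
    intro i _
    have : degIn G A i ≤ N := by
      unfold degIn
      refine (Finset.card_le_univ _).trans ?_
      simp
    omega
  rw [Finset.sum_congr rfl h4]
  simp [mul_comm]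

/-- The vertices of `G` on the side of `s`. -/
noncomputable def sideA (X : Set (Vt N)) : Finset (Fin N) :=
  open Classical in Finset.univ.filter fun i => Vt.v i ∈ X

theorem mem_sideA {X : Set (Vt N)} {i : Fin N} : i ∈ sideA X ↔ Vt.v i ∈ X := by
  classical
  simp [sideA]

theorem red_lower (G : SimpleGraph (Fin N)) (X : Set (Vt N)) (ht : Vt.t ∉ X) :
    (DA G (sideA X)).card ≤ cutSize (Red G) X := by
  classical
  rw [cutSize_eq, ← Set.ncard_coe_finset]
  refine Set.ncard_le_ncard_of_injOn (fun p : Bool × Fin N × Fin N =>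
    if p.1 = true ∧ G.Adj p.2.1 p.2.2 then ((Vt.v p.2.1, Vt.v p.2.2) : Vt N × Vt N)
    else if Vt.x p.1 p.2.1 p.2.2 ∈ X then (Vt.x p.1 p.2.1 p.2.2, Vt.t)
    else (Vt.v p.2.1, Vt.x p.1 p.2.1 p.2.2)) ?_ ?_ (Set.toFinite _)
  · rintro ⟨c, i, j⟩ h
    simp only [DA, Finset.coe_filter, Finset.mem_univ, true_and, Set.mem_ofPred_eq] at h
    obtain ⟨h1, h2⟩ := h
    simp only
    split_ifs with h3 h4
    · exact ⟨Or.inl h3.2, mem_sideA.1 h1, fun h5 => h2 h3.1 h3.2 (mem_sideA.2 h5)⟩
    · exact ⟨Or.inl trivial, h4, ht⟩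
    · refine ⟨Or.inl ⟨rfl, fun h5 h6 => h3 ⟨h5, h6⟩⟩, mem_sideA.1 h1, h4⟩
  · rintro ⟨c, i, j⟩ _ ⟨c', i', j'⟩ _ h
    simp only at h
    split_ifs at h with h1 h2 h3 h4 h5 h6 <;> simp only [Prod.mk.injEq, Vt.v.injEq, Vt.x.injEq,
      reduceCtorEq, and_false, false_and, and_true] at h
    · obtain ⟨rfl, rfl⟩ := h
      rw [h1.1, h2.1]
    · obtain ⟨rfl, rfl, rfl⟩ := h
      rfl
    · obtain ⟨_, rfl, rfl, rfl⟩ := h
      rfl

/-- The cut of a set of vertices of `G`. -/
def cutOf (A : Finset (Fin N)) : Set (Vt N) := {z | z = Vt.s ∨ ∃ i ∈ A, z = Vt.v i}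

theorem red_upper (G : SimpleGraph (Fin N)) (A : Finset (Fin N)) :
    cutSize (Red G) (cutOf A) ≤ (DA G A).card := by
  classical
  rw [cutSize_eq, ← Set.ncard_coe_finset]
  have h : cutPairs (Red G) (cutOf A) ⊆ (fun p : Bool × Fin N × Fin N =>
      if p.1 = true ∧ G.Adj p.2.1 p.2.2 then ((Vt.v p.2.1, Vt.v p.2.2) : Vt N × Vt N)
      else (Vt.v p.2.1, Vt.x p.1 p.2.1 p.2.2)) '' (DA G A : Set (Bool × Fin N × Fin N)) := by
    rintro ⟨a, b⟩ ⟨h1, h2, h3⟩
    simp only at h1 h2 h3
    rcases h2 with rfl | ⟨i, hi, rfl⟩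
    · cases b <;> simp [Red, redD] at h1
    · cases b with
      | s => simp [Red, redD] at h1
      | t => simp [Red, redD] at h1
      | v j =>
        have h4 : G.Adj i j := by
          rcases h1 with h1 | h1
          · exact h1
          · exact SimpleGraph.Adj.symm h1
        refine ⟨(true, i, j), ?_, ?_⟩
        · simp only [DA, Finset.coe_filter, Finset.mem_univ, true_and, Set.mem_ofPred_eq]
          exact ⟨hi, fun _ _ h5 => h3 (Or.inr ⟨j, h5, rfl⟩)⟩
        · simp [h4]
      | x c i' j =>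
        have h4 : i = i' ∧ (c = true → ¬ G.Adj i' j) := by
          rcases h1 with h1 | h1
          · exact h1
          · simp [redD] at h1
        obtain ⟨rfl, h4⟩ := h4
        refine ⟨(c, i, j), ?_, ?_⟩
        · simp only [DA, Finset.coe_filter, Finset.mem_univ, true_and, Set.mem_ofPred_eq]
          exact ⟨hi, fun h5 h6 => absurd h6 (h4 h5)⟩
        · have h5 : ¬ (c = true ∧ G.Adj i j) := fun h5 => h4 h5.1 h5.2
          simp [h5]
  exact (Set.ncard_le_ncard h (Set.toFinite _)).trans (Set.ncard_image_le (Set.toFinite _))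

theorem blue_cut (X : Set (Vt N)) (hs : Vt.s ∈ X) :
    cutSize (Blue N) X = (Finset.univ \ sideA X : Finset (Fin N)).card := by
  classical
  rw [cutSize_eq, ← Set.ncard_coe_finset]
  have h : cutPairs (Blue N) X = (fun i : Fin N => ((Vt.s, Vt.v i) : Vt N × Vt N)) ''
      ((Finset.univ \ sideA X : Finset (Fin N)) : Set (Fin N)) := by
    ext ⟨a, b⟩
    constructor
    · rintro ⟨h1, h2, h3⟩
      simp only at h1 h2 h3
      cases a <;> cases b <;> simp [Blue, blueD] at h1
      · rename_i i
        refine ⟨i, ?_, rfl⟩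
        simp only [Finset.coe_sdiff, Finset.coe_univ, Set.mem_sdiff, Set.mem_univ, true_and,
          Finset.mem_coe, mem_sideA]
        exact h3
      · exact absurd hs h3
    · rintro ⟨i, hi, h⟩
      simp only [Prod.mk.injEq] at h
      obtain ⟨rfl, rfl⟩ := h
      simp only [Finset.coe_sdiff, Finset.coe_univ, Set.mem_sdiff, Set.mem_univ, true_and,
          Finset.mem_coe, mem_sideA] at hi
      exact ⟨Or.inl trivial, hs, hi⟩
  rw [h, Set.ncard_image_of_injective]
  intro i j h
  simp only [Prod.mk.injEq, Vt.v.injEq, true_and] at h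
  exact h

theorem degIn_le (G : SimpleGraph (Fin N)) (A : Finset (Fin N)) {i : Fin N} (hi : i ∈ A) :
    degIn G A i + 1 ≤ A.card := by
  classical
  have h : (A.filter fun j => G.Adj i j) ⊆ A.erase i := by
    intro j hj
    rw [Finset.mem_filter] at hj
    exact Finset.mem_erase.2 ⟨fun h => G.ne_of_adj hj.2 h.symm, hj.1⟩
  have h2 := Finset.card_le_card h
  rw [Finset.card_erase_of_mem hi] at h2
  have h3 : 0 < A.card := Finset.card_pos.2 ⟨i, hi⟩
  unfold degIn
  omega

theorem numeric {m q : ℕ} (h1 : m ≤ q) (h2 : q ≤ 3 * m) (h3 : 6 * m * q ≤ 5 * m ^ 2 + m + q * (q - 1)) :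
    q = m := by
  by_contra hne
  have h4 : m + 1 ≤ q := by omega
  obtain ⟨d, rfl⟩ := Nat.exists_eq_add_of_le h4
  have h5 : m + 1 + d - 1 = m + d := by omega
  rw [h5] at h3
  nlinarith

/-- The cuts of the red-blue graph find the cliques with a third of the vertices. -/
theorem main (m : ℕ) (G : SimpleGraph (Fin (3 * m))) :
    (∃ X : Set (Vt (3 * m)), Vt.s ∈ X ∧ Vt.t ∉ X ∧ cutSize (Red G) X ≤ 5 * m ^ 2 + m ∧
      cutSize (Blue (3 * m)) X ≤ 2 * m) ↔
    ∃ K : Finset (Fin (3 * m)), K.card = m ∧ ∀ i ∈ K, ∀ j ∈ K, i ≠ j → G.Adj i j := by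
  classical
  constructor
  · rintro ⟨X, hs, ht, hr, hb⟩
    have h1 := red_lower G X ht
    rw [blue_cut X hs] at hb
    set A := sideA X with hA
    have h2 := card_DA G A
    have h3 : (Finset.univ \ A).card + A.card = 3 * m := by
      rw [Finset.card_sdiff_add_card_eq_card (Finset.subset_univ _)]
      simp
    have h4 : A.card ≤ 3 * m := by omega
    have h5 : m ≤ A.card := by omega
    have h6 : ∑ i ∈ A, degIn G A i ≤ A.card * (A.card - 1) := by
      calc ∑ i ∈ A, degIn G A i ≤ ∑ _i ∈ A, (A.card - 1) :=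
            Finset.sum_le_sum fun i hi => by have := degIn_le G A hi; omega
        _ = _ := by simp
    have h7 : A.card = m := by
      apply numeric h5 h4
      have : 2 * (3 * m) * A.card = 6 * m * A.card := by ring
      omega
    refine ⟨A, h7, fun i hi j hj hij => ?_⟩
    by_contra hadj
    have h8 : degIn G A i + 2 ≤ A.card := by
      have h : (A.filter fun j => G.Adj i j) ⊆ (A.erase i).erase j := by
        intro k hk
        rw [Finset.mem_filter] at hk
        refine Finset.mem_erase.2 ⟨?_, Finset.mem_erase.2 ⟨fun h => G.ne_of_adj hk.2 h.symm, hk.1⟩⟩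
        rintro rfl
        exact hadj hk.2
      have h2 := Finset.card_le_card h
      rw [Finset.card_erase_of_mem (Finset.mem_erase.2 ⟨hij.symm, hj⟩),
        Finset.card_erase_of_mem hi] at h2
      have h3 : 2 ≤ A.card := by
        have : ({i, j} : Finset _) ⊆ A := by
          intro k hk
          simp only [Finset.mem_insert, Finset.mem_singleton] at hk
          rcases hk with rfl | rfl
          · exact hi
          · exact hj
        have := Finset.card_le_card this
        rwa [Finset.card_pair hij] at this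
      unfold degIn
      omega
    have h9 : ∑ k ∈ A, degIn G A k < ∑ _k ∈ A, (A.card - 1) := by
      refine Finset.sum_lt_sum (fun k hk => ?_) ⟨i, hi, ?_⟩
      · have := degIn_le G A hk
        omega
      · omega
    simp only [Finset.sum_const, smul_eq_mul] at h9
    rw [h7] at h9 h2
    have h10 : 2 * (3 * m) * m = 6 * m ^ 2 := by ring
    have h11 : m * (m - 1) + m = m ^ 2 := by
      cases m with
      | zero => rfl
      | succ n => simp only [Nat.add_sub_cancel]; ring
    omega
  · rintro ⟨K, hK, hcl⟩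
    have hside : sideA (cutOf K) = K := by
      ext i
      rw [mem_sideA]
      constructor
      · rintro (h | ⟨j, hj, h⟩)
        · simp at h
        · rw [Vt.v.injEq] at h
          rwa [h]
      · exact fun h => Or.inr ⟨i, h, rfl⟩
    refine ⟨cutOf K, Or.inl rfl, ?_, (red_upper G K).trans ?_, ?_⟩
    · rintro (h | ⟨j, hj, h⟩) <;> simp at h
    · have h2 := card_DA G K
      have h6 : ∑ i ∈ K, degIn G K i = m * (m - 1) := by
        have h7 : ∑ i ∈ K, degIn G K i = ∑ _i ∈ K, (m - 1) := by
          refine Finset.sum_congr rfl fun i hi => ?_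
          unfold degIn
          have h8 : m - 1 = (K.erase i).card := by rw [Finset.card_erase_of_mem hi, hK]
          rw [h8]
          congr 1
          ext j
          rw [Finset.mem_filter, Finset.mem_erase]
          constructor
          · rintro ⟨h1, h2⟩
            exact ⟨fun h => G.ne_of_adj h2 h.symm, h1⟩
          · rintro ⟨h1, h2⟩
            exact ⟨h2, hcl i hi j h2 h1.symm⟩
        rw [h7, Finset.sum_const, hK, smul_eq_mul]
      rw [h6, hK] at h2
      have h10 : 2 * (3 * m) * m = 6 * m ^ 2 := by ring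
      have h11 : m * (m - 1) + m = m ^ 2 := by
        cases m with
        | zero => rfl
        | succ n => simp only [Nat.add_sub_cancel]; ring
      omega
    · rw [blue_cut _ (Or.inl rfl), hside]
      have h3 : (Finset.univ \ K).card + K.card = 3 * m := by
        rw [Finset.card_sdiff_add_card_eq_card (Finset.subset_univ _)]
        simp
      omega

end Pool.Agent.K1H72.RB
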