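import Pool.Agent.K1H72.RB.Core
import Pool.Agent.H634R2.Clique
import Pool.Agent.R892.Ord.Mem

/-!
# The unweighted red-blue cut problem in undirected graphs: membership in NP and hardness
-/

set_option autoImplicit false

namespace Pool.Agent.NPC.K1H72RB

open Pool.Agent.K1H72.RB Pool.Agent.NPC Pool.Agent.NPC.R671 Pool.Agent.NPC.R892 Pool.Agent.NPC.H634R2

/-- The unweighted red-blue `s`-`t` cut problem.  An instance consists of the adjacency matrices of
two edge-disjoint simple undirected graphs `R` (the red edges) and `B` (the blue edges) on the same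
vertices `0, ..., n - 1`, two different vertices `s`, `t`, and the numbers `r` and `b`.  The
question is whether some set `X` of vertices with `s ∈ X` and `t ∉ X` is left by at most `r` red
and at most `b` blue edges. -/
def RedBlueCut (I : (List (List Bool) × List (List Bool)) × (ℕ × ℕ) × (ℕ × ℕ)) : Prop :=
  ∃ (n : ℕ) (R B : SimpleGraph (Fin n)) (s t : Fin n),
    adjMatrix R = I.1.1 ∧ adjMatrix B = I.1.2 ∧ s.1 = I.2.1.1 ∧ t.1 = I.2.1.2 ∧
    Disjoint R B ∧ s ≠ t ∧
    ∃ X : Set (Fin n), s ∈ X ∧ t ∉ X ∧ cutSize R X ≤ I.2.2.1 ∧ cutSize B X ≤ I.2.2.2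

theorem mem_prod {α β : Type} {l : List α} {l' : List β} {a : α} {b : β} :
    (a, b) ∈ l ×ˢ l' ↔ a ∈ l ∧ b ∈ l' := List.pair_mem_product

/-! ### Membership in NP -/

/-- Number of the pairs of adjacent vertices separated by the certificate. -/
def cnt (M : List (List Bool)) (w : List Bool) (n : ℕ) : ℕ :=
  ((List.range n ×ˢ List.range n).filter fun p =>
    ent M p.1 p.2 && (w.getD p.1 false && !w.getD p.2 false)).length

/-- The verifier. -/
def chkRB (p : ((List (List Bool) × List (List Bool)) × (ℕ × ℕ) × (ℕ × ℕ)) × List Bool) : Bool :=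
  isAdjB p.1.1.1 && (isAdjB p.1.1.2 && (decide (p.1.1.2.length = p.1.1.1.length) &&
  (decide (p.1.2.1.1 < p.1.1.1.length) && (decide (p.1.2.1.2 < p.1.1.1.length) &&
  (((List.range p.1.1.1.length).all fun i => (List.range p.1.1.1.length).all fun j =>
      !(ent p.1.1.1 i j && ent p.1.1.2 i j)) &&
  ((p.2.getD p.1.2.1.1 false && !p.2.getD p.1.2.1.2 false) &&
  (decide (cnt p.1.1.1 p.2 p.1.1.1.length ≤ p.1.2.2.1) &&
    decide (cnt p.1.1.2 p.2 p.1.1.1.length ≤ p.1.2.2.2))))))))

theorem cnt_eq {n : ℕ} (G : SimpleGraph (Fin n)) (w : List Bool) :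
    cnt (adjMatrix G) w n = cutSize G {i | w.getD i.1 false = true} := by
  classical
  rw [cutSize_eq]
  unfold cnt
  have h1 : (((List.range n ×ˢ List.range n).filter fun p =>
      ent (adjMatrix G) p.1 p.2 && (w.getD p.1 false && !w.getD p.2 false)).toFinset.card) =
      (cutPairs G {i | w.getD i.1 false = true}).ncard := by
    rw [← Set.ncard_coe_finset]
    have h2 : (((List.range n ×ˢ List.range n).filter fun p =>
        ent (adjMatrix G) p.1 p.2 && (w.getD p.1 false && !w.getD p.2 false)).toFinset :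
        Set (ℕ × ℕ)) = (Prod.map Fin.val Fin.val) '' (cutPairs G {i | w.getD i.1 false = true}) := by
      ext ⟨a, b⟩
      simp only [List.coe_toFinset, List.mem_filter, mem_prod, List.mem_range,
        Set.mem_ofPred_eq, Bool.and_eq_true, Bool.not_eq_true', Set.mem_image, Prod.exists,
        Prod.map_apply, Prod.mk.injEq]
      constructor
      · rintro ⟨⟨h1, h2⟩, h3, h4, h5⟩
        refine ⟨⟨a, h1⟩, ⟨b, h2⟩, ⟨(ent_adjMatrix G ⟨a, h1⟩ ⟨b, h2⟩).1 h3, h4, ?_⟩, rfl, rfl⟩
        simp only [Set.mem_ofPred_eq]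
        rw [h5]
        simp
      · rintro ⟨x, y, ⟨h1, h2, h3⟩, rfl, rfl⟩
        refine ⟨⟨x.2, y.2⟩, (ent_adjMatrix G x y).2 h1, h2, ?_⟩
        simp only [Set.mem_ofPred_eq, Bool.not_eq_true] at h3
        exact h3
    rw [h2, Set.ncard_image_of_injective _ (Function.Injective.prodMap Fin.val_injective
      Fin.val_injective)]
  rw [← h1, List.toFinset_card_of_nodup]
  exact (List.nodup_range.product List.nodup_range).filter _

theorem rb_iff (I : (List (List Bool) × List (List Bool)) × (ℕ × ℕ) × (ℕ × ℕ)) :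
    RedBlueCut I ↔ ∃ w : List Bool, w.length = I.1.1.length ∧ chkRB (I, w) = true := by
  classical
  unfold chkRB
  simp only [Bool.and_eq_true, List.all_eq_true, decide_eq_true_eq, List.mem_range, isAdjB_iff,
    Bool.not_eq_true', Bool.and_eq_false_iff]
  constructor
  · rintro ⟨n, R, B, s, t, h1, h2, h3, h4, h5, h6, X, h7, h8, h9, h10⟩
    have hget : ∀ i : Fin n, (List.ofFn fun i => decide (i ∈ X)).getD i.1 false =
        decide (i ∈ X) := by
      intro i
      rw [List.getD_eq_getElem _ _ (by simp)]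
      simp
    have hX : {i : Fin n | (List.ofFn fun i => decide (i ∈ X)).getD i.1 false = true} = X := by
      ext i
      rw [Set.mem_ofPred_eq, hget]
      simp
    refine ⟨List.ofFn fun i => decide (i ∈ X), ?_, ?_⟩
    · rw [← h1, length_adjMatrix]; simp
    · rw [← h1, ← h2, ← h3, ← h4, length_adjMatrix, length_adjMatrix]
      refine ⟨isAdj_adjMatrix _, isAdj_adjMatrix _, rfl, s.2, t.2, ?_, ⟨?_, ?_⟩, ?_, ?_⟩
      · intro i hi j hj
        by_contra hc
        simp only [not_or, Bool.not_eq_false] at hc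
        have e1 := (ent_adjMatrix R ⟨i, hi⟩ ⟨j, hj⟩).1 hc.1
        have e2 := (ent_adjMatrix B ⟨i, hi⟩ ⟨j, hj⟩).1 hc.2
        have e3 := disjoint_iff_inf_le.1 h5
        exact e3 (show (R ⊓ B).Adj _ _ from ⟨e1, e2⟩)
      · rw [hget]; exact decide_eq_true h7
      · rw [hget]; exact decide_eq_false h8
      · rw [cnt_eq, hX]; exact h9
      · rw [cnt_eq, hX]; exact h10
  · rintro ⟨w, -, h1, h2, h3, h4, h5, h6, ⟨h7, h8⟩, h9, h10⟩
    have e1 : adjMatrix (matG I.1.1 _ h1 rfl) = I.1.1 := adjMatrix_matG _ _ _ _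
    have e2 : adjMatrix (matG I.1.2 _ h2 h3) = I.1.2 := adjMatrix_matG _ _ _ _
    refine ⟨I.1.1.length, matG I.1.1 _ h1 rfl, matG I.1.2 _ h2 h3, ⟨_, h4⟩, ⟨_, h5⟩, e1, e2,
      rfl, rfl, ?_, ?_, {i | w.getD i.1 false = true}, h7, ?_, ?_, ?_⟩
    · rw [disjoint_iff_inf_le]
      rintro a b ⟨hr, hb⟩
      have hr' : ent I.1.1 a b = true := hr
      have hb' : ent I.1.2 a b = true := hb
      rcases h6 a a.2 b b.2 with h | h
      · rw [h] at hr'; exact absurd hr' (by simp)
      · rw [h] at hb'; exact absurd hb' (by simp)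
    · intro h
      have h' : I.2.1.1 = I.2.1.2 := congrArg Fin.val h
      rw [h'] at h7
      rw [h7] at h8
      exact absurd h8 (by simp)
    · simp only [Set.mem_ofPred_eq]
      rw [h8]
      simp
    · rw [← cnt_eq, e1]; exact h9
    · rw [← cnt_eq, e2]; exact h10

theorem poly_cnt {α : Type} [TEnc α] {M : α → List (List Bool)} {w : α → List Bool}
    {L : α → List (List Bool)} (hM : Poly M) (hw : Poly w) (hn : Poly L) :
    Poly (fun a => cnt (M a) (w a) (L a).length) := by
  unfold cnt
  have h : Poly (fun a => List.range (L a).length) := Poly.range_length hn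
  refine Poly.length ?_
  refine Poly.filter (p := fun a (p : ℕ × ℕ) =>
    ent (M a) p.1 p.2 && ((w a).getD p.1 false && !(w a).getD p.2 false)) (poly_product h h) ?_
  refine Poly.and (poly_ent (by fun_prop) (by fun_prop) (by fun_prop)) (by fun_prop)

theorem poly_chkRB : Poly chkRB := by
  unfold chkRB
  have h : ∀ {β : Type} [TEnc β] {f : β → List (List Bool)}, Poly f →
      Poly (fun a => List.range (f a).length) := fun hf => Poly.range_length hf
  have hM : Poly (fun p : ((List (List Bool) × List (List Bool)) × (ℕ × ℕ) × (ℕ × ℕ)) ×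
      List Bool => p.1.1.1) := by fun_prop
  have hM2 : Poly (fun p : ((List (List Bool) × List (List Bool)) × (ℕ × ℕ) × (ℕ × ℕ)) ×
      List Bool => p.1.1.2) := by fun_prop
  have hw : Poly (fun p : ((List (List Bool) × List (List Bool)) × (ℕ × ℕ) × (ℕ × ℕ)) ×
      List Bool => p.2) := by fun_prop
  refine Poly.and (poly_isAdjB.comp hM) (Poly.and (poly_isAdjB.comp hM2) (Poly.and (by fun_prop)
    (Poly.and (by fun_prop) (Poly.and (by fun_prop) (Poly.and ?_ (Poly.and (by fun_prop)
    (Poly.and ?_ ?_)))))))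
  · refine Poly.all (h hM) ?_
    refine Poly.all (h (hM.comp (Poly.fst Poly.id))) ?_
    refine Poly.not (Poly.and (poly_ent (by fun_prop) (by fun_prop) (by fun_prop))
      (poly_ent (by fun_prop) (by fun_prop) (by fun_prop)))
  · exact Poly.decide_le (poly_cnt hM hw hM) (by fun_prop)
  · exact Poly.decide_le (poly_cnt hM2 hw hM) (by fun_prop)

theorem inNPP_redBlueCut : InNPP RedBlueCut := by
  refine inNPP_of (β := List Bool) poly_chkRB
    (Polynomial.X * Polynomial.C 8 + Polynomial.C 1) ?_
  intro I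
  constructor
  · intro h
    obtain ⟨w, h1, h3⟩ := (rb_iff I).1 h
    refine ⟨w, ?_, h3⟩
    have h5 := length_lt_sz I.1.1
    have h6 : sz I.1.1 ≤ sz I := by
      rcases I with ⟨⟨a, b⟩, c⟩
      simp only [sz_pair]
      omega
    have h7 : ∀ a ∈ w, sz a ≤ 7 := by
      intro a _
      cases a <;> decide
    have h8 := sz_le_length_mul _ _ h7
    rw [h1] at h8
    simp only [Polynomial.eval_add, Polynomial.eval_mul, Polynomial.eval_X, Polynomial.eval_C]
    omega
  · rintro ⟨w, -, hw⟩
    have hw' := hw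
    unfold chkRB at hw'
    rw [rb_iff]
    refine ⟨(List.range I.1.1.length).map fun i => w.getD i false, by simp, ?_⟩
    have hg : ∀ i < I.1.1.length, ((List.range I.1.1.length).map fun i => w.getD i false).getD i
        false = w.getD i false := by
      intro i hi
      rw [List.getD_eq_getElem _ _ (by simpa using hi)]
      simp
    have hc : ∀ M, cnt M ((List.range I.1.1.length).map fun i => w.getD i false) I.1.1.length =
        cnt M w I.1.1.length := by
      intro M
      unfold cnt
      congr 1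
      refine List.filter_congr fun p hp => ?_
      obtain ⟨p1, p2⟩ := p
      rw [mem_prod, List.mem_range, List.mem_range] at hp
      rw [hg _ hp.1, hg _ hp.2]
    unfold chkRB
    simp only [Bool.and_eq_true, decide_eq_true_eq] at hw' ⊢
    obtain ⟨a1, a2, a3, a4, a5, a6, a7, a8, a9⟩ := hw'
    refine ⟨a1, a2, a3, a4, a5, a6, ?_, ?_, ?_⟩
    · rw [hg _ a4, hg _ a5]; exact a7
    · rw [hc]; exact a8
    · rw [hc]; exact a9

/-! ### The reduction -/

/-- Labels of vertices. -/
abbrev Lb : Type := ℕ × ℕ × ℕ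

/-- Adjacency in the graph given by a list of pairs. -/
def adjE (E : List (ℕ × ℕ)) (i j : ℕ) : Bool :=
  !decide (i = j) && (decide ((i, j) ∈ E) || decide ((j, i) ∈ E))

/-- Red edges between labels, in one direction. -/
def rlab (E : List (ℕ × ℕ)) (a b : Lb) : Bool :=
  (decide (a.1 = 2) && (decide (b.1 = 2) && adjE E a.2.1 b.2.1)) ||
  ((decide (a.1 = 2) && (decide (b.1 = 3) && decide (a.2.1 = b.2.1))) ||
  ((decide (a.1 = 2) && (decide (b.1 = 4) && (decide (a.2.1 = b.2.1) &&
    !adjE E b.2.1 b.2.2))) ||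
  ((decide (a.1 = 3) || decide (a.1 = 4)) && decide (b.1 = 1))))

/-- Red edges between labels. -/
def red (E : List (ℕ × ℕ)) (a b : Lb) : Bool := rlab E a b || rlab E b a

/-- Blue edges between labels. -/
def blue (a b : Lb) : Bool :=
  (decide (a.1 = 0) && decide (b.1 = 2)) || (decide (b.1 = 0) && decide (a.1 = 2))

theorem red_symm (E : List (ℕ × ℕ)) (a b : Lb) : red E a b = red E b a := by
  unfold red; rw [Bool.or_comm]

theorem blue_symm (a b : Lb) : blue a b = blue b a := by
  unfold blue; rw [Bool.or_comm]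

theorem red_irrefl (E : List (ℕ × ℕ)) (a : Lb) : red E a a = false := by
  obtain ⟨i, j, k⟩ := a
  unfold red rlab adjE
  simp only [Bool.or_self]
  rw [Bool.eq_false_iff]
  simp only [ne_eq, Bool.or_eq_true, Bool.and_eq_true, decide_eq_true_eq, Bool.not_eq_true',
    decide_eq_false_iff_not, not_true_eq_false, false_and, and_false, false_or, true_and]
  omega

theorem blue_irrefl (a : Lb) : blue a a = false := by
  obtain ⟨i, j, k⟩ := a
  unfold blue
  rw [Bool.eq_false_iff]
  simp only [ne_eq, Bool.or_eq_true, Bool.and_eq_true, decide_eq_true_eq]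
  omega

/-- The list of vertices. -/
def vs (φ : List Cl3) : List Lb :=
  [((0 : ℕ), (0 : ℕ), (0 : ℕ)), (1, 0, 0)] ++ ((gV φ).map (fun i => ((2 : ℕ), i, (0 : ℕ))) ++
    (((gV φ) ×ˢ (gV φ)).map (fun p => ((3 : ℕ), p.1, p.2)) ++
      ((gV φ) ×ˢ (gV φ)).map (fun p => ((4 : ℕ), p.1, p.2))))

/-- The graph given by the formula. -/
def gr (φ : List Cl3) : SimpleGraph (Fin (3 * φ.length)) where
  Adj i j := adjE (gE φ) i j = true
  symm := ⟨fun i j h => by
    unfold adjE at h ⊢
    rw [Bool.or_comm, decide_eq_decide.2 (eq_comm (a := j.1) (b := i.1))]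
    exact h⟩
  loopless := ⟨fun i h => by
    unfold adjE at h
    simp at h⟩

/-- The label of a vertex. -/
def code {N : ℕ} : Vt N → Lb
  | Vt.s => (0, 0, 0)
  | Vt.t => (1, 0, 0)
  | Vt.v i => (2, i, 0)
  | Vt.x false i j => (3, i, j)
  | Vt.x true i j => (4, i, j)

theorem code_inj {N : ℕ} : Function.Injective (code (N := N)) := by
  intro a b h
  cases a with
  | s => cases b with
    | s => rfl
    | t => simp [code] at h
    | v j => simp [code] at h
    | x d k l => cases d <;> simp [code] at h
  | t => cases b with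
    | s => simp [code] at h
    | t => rfl
    | v j => simp [code] at h
    | x d k l => cases d <;> simp [code] at h
  | v i => cases b with
    | s => simp [code] at h
    | t => simp [code] at h
    | v j =>
      simp only [code, Prod.mk.injEq, and_true, true_and] at h
      rw [Fin.ext h]
    | x d k l => cases d <;> simp [code] at h
  | x c i j => cases b with
    | s => cases c <;> simp [code] at h
    | t => cases c <;> simp [code] at h
    | v j => cases c <;> simp [code] at h
    | x d k l =>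
      cases c <;> cases d
      · simp only [code, Prod.mk.injEq, true_and] at h
        rw [Fin.ext h.1, Fin.ext h.2]
      · simp [code] at h
      · simp [code] at h
      · simp only [code, Prod.mk.injEq, true_and] at h
        rw [Fin.ext h.1, Fin.ext h.2]

theorem mem_gV {φ : List Cl3} {i : ℕ} : i ∈ gV φ ↔ i < 3 * φ.length := by
  rw [gV_eq, List.mem_range]

theorem mem_vs {φ : List Cl3} (z : Lb) :
    z ∈ vs φ ↔ ∃ x : Vt (3 * φ.length), code x = z := by
  unfold vs
  simp only [List.mem_append, List.mem_cons, List.not_mem_nil, or_false, List.mem_map,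
    Prod.exists, mem_prod, mem_gV]
  constructor
  · rintro ((rfl | rfl) | ⟨i, hi, rfl⟩ | ⟨i, j, ⟨hi, hj⟩, rfl⟩ | ⟨i, j, ⟨hi, hj⟩, rfl⟩)
    · exact ⟨Vt.s, rfl⟩
    · exact ⟨Vt.t, rfl⟩
    · exact ⟨Vt.v ⟨i, hi⟩, rfl⟩
    · exact ⟨Vt.x false ⟨i, hi⟩ ⟨j, hj⟩, rfl⟩
    · exact ⟨Vt.x true ⟨i, hi⟩ ⟨j, hj⟩, rfl⟩
  · rintro ⟨x, rfl⟩
    cases x with
    | s => exact Or.inl (Or.inl rfl)
    | t => exact Or.inl (Or.inr rfl)
    | v i => exact Or.inr (Or.inl ⟨i, i.2, rfl⟩)
    | x c i j =>
      cases c
      · exact Or.inr (Or.inr (Or.inl ⟨i, j, ⟨i.2, j.2⟩, rfl⟩))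
      · exact Or.inr (Or.inr (Or.inr ⟨i, j, ⟨i.2, j.2⟩, rfl⟩))

theorem nodup_vs (φ : List Cl3) : (vs φ).Nodup := by
  have hV : (gV φ).Nodup := by rw [gV_eq]; exact List.nodup_range
  have hP : ((gV φ) ×ˢ (gV φ)).Nodup := hV.product hV
  unfold vs
  refine List.Nodup.append (by decide) (List.Nodup.append (hV.map ?_) (List.Nodup.append
    (hP.map ?_) (hP.map ?_) ?_) ?_) ?_
  · intro i j h
    simpa using h
  · rintro ⟨i, j⟩ ⟨k, l⟩ h
    simpa using h
  · rintro ⟨i, j⟩ ⟨k, l⟩ h
    simpa using h
  · intro z h1 h2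
    obtain ⟨p, _, rfl⟩ := List.mem_map.1 h1
    obtain ⟨q, _, h⟩ := List.mem_map.1 h2
    simp at h
  · intro z h1 h2
    obtain ⟨p, _, rfl⟩ := List.mem_map.1 h1
    rcases List.mem_append.1 h2 with h2 | h2
    · obtain ⟨q, _, h⟩ := List.mem_map.1 h2
      simp at h
    · obtain ⟨q, _, h⟩ := List.mem_map.1 h2
      simp at h
  · intro z h1 h2
    simp only [List.mem_cons, List.not_mem_nil, or_false] at h1
    rcases List.mem_append.1 h2 with h2 | h2
    · obtain ⟨q, _, h⟩ := List.mem_map.1 h2
      rcases h1 with rfl | rfl <;> simp at h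
    · rcases List.mem_append.1 h2 with h2 | h2
      · obtain ⟨q, _, h⟩ := List.mem_map.1 h2
        rcases h1 with rfl | rfl <;> simp at h
      · obtain ⟨q, _, h⟩ := List.mem_map.1 h2
        rcases h1 with rfl | rfl <;> simp at h

theorem red_code (φ : List Cl3) (a b : Vt (3 * φ.length)) :
    red (gE φ) (code a) (code b) = true ↔ (Red (gr φ)).Adj a b := by
  have h : ∀ a b : Vt (3 * φ.length), rlab (gE φ) (code a) (code b) = true ↔ redD (gr φ) a b := by
    intro a b
    cases a with
    | s => cases b with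
      | s => simp [code, rlab, redD]
      | t => simp [code, rlab, redD]
      | v j => simp [code, rlab, redD]
      | x d k l => cases d <;> simp [code, rlab, redD]
    | t => cases b with
      | s => simp [code, rlab, redD]
      | t => simp [code, rlab, redD]
      | v j => simp [code, rlab, redD]
      | x d k l => cases d <;> simp [code, rlab, redD]
    | v i => cases b with
      | s => simp [code, rlab, redD]
      | t => simp [code, rlab, redD]
      | v j => simp [code, rlab, redD, gr]
      | x d k l =>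
        cases d
        · simp only [code, rlab, redD, Fin.ext_iff, Bool.or_eq_true, Bool.and_eq_true, gr]
          simp
          try exact decide_eq_true_iff
          try exact fun _ => decide_eq_true_iff
        · simp only [code, rlab, redD, Fin.ext_iff, Bool.or_eq_true, Bool.and_eq_true, gr]
          simp
          try exact decide_eq_true_iff
          try exact fun _ => decide_eq_true_iff
    | x c i j => cases b with
      | s => cases c <;> simp [code, rlab, redD]
      | t => cases c <;> simp [code, rlab, redD]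
      | v j => cases c <;> simp [code, rlab, redD]
      | x d k l => cases c <;> cases d <;> simp [code, rlab, redD]
  unfold red Red
  simp only [Bool.or_eq_true, h]

theorem blue_code {N : ℕ} (a b : Vt N) :
    blue (code a) (code b) = true ↔ (Blue N).Adj a b := by
  cases a with
    | s => cases b with
      | s => simp [code, blue, blueD, Blue]
      | t => simp [code, blue, blueD, Blue]
      | v j => simp [code, blue, blueD, Blue]
      | x d k l => cases d <;> simp [code, blue, blueD, Blue]
    | t => cases b with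
      | s => simp [code, blue, blueD, Blue]
      | t => simp [code, blue, blueD, Blue]
      | v j => simp [code, blue, blueD, Blue]
      | x d k l => cases d <;> simp [code, blue, blueD, Blue]
    | v i => cases b with
      | s => simp [code, blue, blueD, Blue]
      | t => simp [code, blue, blueD, Blue]
      | v j => simp [code, blue, blueD, Blue]
      | x d k l => cases d <;> simp [code, blue, blueD, Blue]
    | x c i j => cases b with
      | s => cases c <;> simp [code, blue, blueD, Blue]
      | t => cases c <;> simp [code, blue, blueD, Blue]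
      | v j => cases c <;> simp [code, blue, blueD, Blue]
      | x d k l => cases c <;> cases d <;> simp [code, blue, blueD, Blue]

/-- The instance of the red-blue cut problem. -/
def inst (φ : List Cl3) : (List (List Bool) × List (List Bool)) × (ℕ × ℕ) × (ℕ × ℕ) :=
  (((vs φ).map (fun u => (vs φ).map (fun w => red (gE φ) u w)),
    (vs φ).map (fun u => (vs φ).map (fun w => blue u w))),
    (0, 1), (5 * (φ.length * φ.length) + φ.length, 2 * φ.length))

theorem rb_adjMatrix {n : ℕ} (R B : SimpleGraph (Fin n)) (s t : Fin n) (r b : ℕ) :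
    RedBlueCut ((adjMatrix R, adjMatrix B), (s.1, t.1), (r, b)) ↔ Disjoint R B ∧ s ≠ t ∧
      ∃ X : Set (Fin n), s ∈ X ∧ t ∉ X ∧ cutSize R X ≤ r ∧ cutSize B X ≤ b := by
  constructor
  · rintro ⟨n', R', B', s', t', h1, h2, h3, h4, h5⟩
    have hn : n' = n := by
      have := congrArg List.length h1
      rwa [length_adjMatrix, length_adjMatrix] at this
    subst hn
    rw [adjMatrix_inj h1, adjMatrix_inj h2, Fin.ext h3, Fin.ext h4] at h5
    exact h5
  · intro h
    exact ⟨n, R, B, s, t, rfl, rfl, rfl, rfl, h⟩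

theorem inst_iff (φ : List Cl3) : RedBlueCut (inst φ) ↔ SAT3 φ := by
  obtain ⟨e, he⟩ := exists_equiv (vs φ) (nodup_vs φ) code code_inj mem_vs
  have h1 : 1 < (vs φ).length := by simp [vs]
  have h0 : 0 < (vs φ).length := by omega
  set R := listGraph (vs φ) (red (gE φ)) (red_symm _) (red_irrefl _) with hR
  set B := listGraph (vs φ) blue blue_symm blue_irrefl with hB
  have hi : inst φ = ((adjMatrix R, adjMatrix B), ((⟨0, h0⟩ : Fin (vs φ).length).1,
      (⟨1, h1⟩ : Fin (vs φ).length).1), (5 * φ.length ^ 2 + φ.length, 2 * φ.length)) := by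
    rw [hR, hB, adjMatrix_listGraph, adjMatrix_listGraph]
    unfold inst
    rw [sq]
  have hRe : ∀ a b, (Red (gr φ)).Adj (e a) (e b) ↔ R.Adj a b := by
    intro a b
    rw [← red_code, he, he]
    rfl
  have hBe : ∀ a b, (Blue _).Adj (e a) (e b) ↔ B.Adj a b := by
    intro a b
    rw [← blue_code, he, he]
    rfl
  have hs : e ⟨0, h0⟩ = Vt.s := by
    apply code_inj
    rw [he]
    rfl
  have ht : e ⟨1, h1⟩ = Vt.t := by
    apply code_inj
    rw [he]
    rfl
  rw [hi, rb_adjMatrix]
  have hdis : Disjoint R B := by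
    rw [disjoint_iff_inf_le]
    rintro a b ⟨hr, hb⟩
    have := disjoint_iff_inf_le.1 (disjoint_red_blue (gr φ))
    exact this (show (Red (gr φ) ⊓ Blue _).Adj (e a) (e b) from ⟨(hRe a b).2 hr, (hBe a b).2 hb⟩)
  have hne : (⟨0, h0⟩ : Fin (vs φ).length) ≠ ⟨1, h1⟩ := by
    intro h
    have := congrArg Fin.val h
    simp at this
  have key : (∃ X : Set (Fin (vs φ).length), ⟨0, h0⟩ ∈ X ∧ ⟨1, h1⟩ ∉ X ∧
      cutSize R X ≤ 5 * φ.length ^ 2 + φ.length ∧ cutSize B X ≤ 2 * φ.length) ↔
      ∃ K : Finset (Fin (3 * φ.length)), K.card = φ.length ∧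
        ∀ i ∈ K, ∀ j ∈ K, i ≠ j → (gr φ).Adj i j := by
    rw [← main]
    constructor
    · rintro ⟨X, a1, a2, a3, a4⟩
      refine ⟨e '' X, ⟨_, a1, hs⟩, ?_, ?_, ?_⟩
      · rintro ⟨z, hz, hz'⟩
        rw [← ht] at hz'
        rw [e.injective hz'] at hz
        exact a2 hz
      · rw [cutSize_iso e hRe]; exact a3
      · rw [cutSize_iso e hBe]; exact a4
    · rintro ⟨X, a1, a2, a3, a4⟩
      have hX : e '' (e ⁻¹' X) = X := Set.image_preimage_eq X e.surjective
      refine ⟨e ⁻¹' X, ?_, ?_, ?_, ?_⟩
      · rw [Set.mem_preimage, hs]; exact a1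
      · rw [Set.mem_preimage, ht]; exact a2
      · rw [← cutSize_iso e hRe, hX]; exact a3
      · rw [← cutSize_iso e hBe, hX]; exact a4
  rw [key, ← hasClique_g]
  constructor
  · rintro ⟨-, -, K, hK, hcl⟩
    refine ⟨K.map Fin.valEmbedding, ?_, by rw [Finset.card_map, hK], ?_⟩
    · intro v hv
      obtain ⟨i, _, rfl⟩ := Finset.mem_map.1 hv
      exact mem_gV.2 i.2
    · intro u hu v hv huv
      obtain ⟨i, hi, rfl⟩ := Finset.mem_map.1 hu
      obtain ⟨j, hj, rfl⟩ := Finset.mem_map.1 hv
      have h := hcl i hi j hj (fun h => huv (by rw [h]))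
      have h' : adjE (gE φ) i j = true := h
      unfold adjE at h'
      simp only [Bool.and_eq_true, Bool.or_eq_true, decide_eq_true_eq] at h'
      exact h'.2
  · rintro ⟨K, hK1, hK2, hK3⟩
    refine ⟨hdis, hne, Finset.univ.filter (fun i => i.1 ∈ K), ?_, ?_⟩
    · refine Eq.trans ?_ hK2
      refine Finset.card_bij (fun i _ => i.1) ?_ ?_ ?_
      · intro i hi
        exact (Finset.mem_filter.1 hi).2
      · intro i _ j _ h
        exact Fin.ext h
      · intro k hk
        exact ⟨⟨k, mem_gV.1 (hK1 k hk)⟩, Finset.mem_filter.2 ⟨Finset.mem_univ _, hk⟩, rfl⟩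
    · intro i hi j hj hij
      show adjE (gE φ) i j = true
      unfold adjE
      simp only [Bool.and_eq_true, Bool.or_eq_true, decide_eq_true_eq, Bool.not_eq_true',
        decide_eq_false_iff_not]
      have hne : i.1 ≠ j.1 := fun h => hij (Fin.ext h)
      exact ⟨hne, hK3 _ (Finset.mem_filter.1 hi).2 _ (Finset.mem_filter.1 hj).2 hne⟩

theorem poly_adjE {α : Type} [TEnc α] {E : α → List (ℕ × ℕ)} {i j : α → ℕ} (hE : Poly E)
    (hi : Poly i) (hj : Poly j) : Poly (fun a => adjE (E a) (i a) (j a)) := by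
  unfold adjE
  fun_prop

theorem poly_rlab {α : Type} [TEnc α] {E : α → List (ℕ × ℕ)} {a b : α → Lb} (hE : Poly E)
    (ha : Poly a) (hb : Poly b) : Poly (fun x => rlab (E x) (a x) (b x)) := by
  unfold rlab
  have h1 : Poly (fun x => adjE (E x) (a x).2.1 (b x).2.1) :=
    poly_adjE hE (by fun_prop) (by fun_prop)
  have h2 : Poly (fun x => adjE (E x) (b x).2.1 (b x).2.2) :=
    poly_adjE hE (by fun_prop) (by fun_prop)
  fun_prop

theorem poly_vs : Poly vs := by
  unfold vs
  have h := gV_poly
  fun_prop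

theorem poly_inst : Poly inst := by
  have hv := poly_vs
  have hE := gE_poly
  unfold inst
  refine Poly.pair (Poly.pair ?_ ?_) (Poly.pair (Poly.const _) ?_)
  · refine Poly.map (l := vs) (F := fun φ u => (vs φ).map (fun w => red (gE φ) u w)) hv ?_
    refine Poly.map (l := fun p : List Cl3 × Lb => vs p.1)
      (F := fun p w => red (gE p.1) p.2 w) (hv.comp (Poly.fst Poly.id)) ?_
    unfold red
    exact Poly.or (poly_rlab (hE.comp (by fun_prop)) (by fun_prop) (by fun_prop))
      (poly_rlab (hE.comp (by fun_prop)) (by fun_prop) (by fun_prop))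
  · refine Poly.map (l := vs) (F := fun φ u => (vs φ).map (fun w => blue u w)) hv ?_
    refine Poly.map (l := fun p : List Cl3 × Lb => vs p.1)
      (F := fun p w => blue p.2 w) (hv.comp (Poly.fst Poly.id)) ?_
    unfold blue
    fun_prop
  · fun_prop

theorem hardI_redBlueCut : HardI RedBlueCut :=
  hardI_SAT3.trans poly_inst (fun φ => (inst_iff φ).symm)

end Pool.Agent.NPC.K1H72RB
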